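import Pool.Agent.H.MP_60be70_gt.Scheme

open Set Filter Metric Function Topology Cardinal

namespace Pool.Agent.H.MP_60be70_gt

universe u

/-- Transfinite choice of pairwise disjoint finite sets. -/
theorem exists_pairwise_disjoint_choice {ι K : Type u} {κ : Cardinal.{u}} (hκ : ℵ₀ < κ)
    (hι : #ι ≤ κ) (T : ι → Set (Finset K))
    (hT : ∀ i, ∀ S : Set K, #S < κ → ∃ t ∈ T i, Disjoint (t : Set K) S) :
    ∃ f : ι → Finset K, (∀ i, f i ∈ T i) ∧ ∀ i j, i ≠ j → Disjoint (f i) (f j) := by
  classical
  obtain ⟨r, wo, hr⟩ := Cardinal.exists_ord_eq ι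
  have hinit : ∀ i, #{j // r j i} < κ := by
    intro i
    have := Cardinal.card_typein_lt (r := r) i hr
    rw [Ordinal.card_typein] at this
    exact this.trans_le hι
  have wf : WellFounded r := wo.wf
  let step : ∀ i, (∀ j, r j i → Finset K) → Finset K := fun i g =>
    if h : ∃ t ∈ T i, Disjoint (t : Set K) (⋃ j : {j // r j i}, (g j.1 j.2 : Set K)) then
      Classical.choose h else ∅
  let f : ι → Finset K := wf.fix step
  have hf : ∀ i, f i = step i (fun j _ => f j) := fun i => wf.fix_eq step i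
  have key : ∀ i, f i ∈ T i ∧ Disjoint (f i : Set K) (⋃ j : {j // r j i}, (f j.1 : Set K)) := by
    intro i
    have hcard : #(⋃ j : {j // r j i}, (f j.1 : Set K) : Set K) < κ := by
      have h1 : #(⋃ j : {j // r j i}, (f j.1 : Set K) : Set K) ≤
          Cardinal.sum (fun j : {j // r j i} => #(f j.1 : Set K)) := Cardinal.mk_iUnion_le_sum_mk
      have h2 : Cardinal.sum (fun j : {j // r j i} => #(f j.1 : Set K)) ≤
          Cardinal.sum (fun _ : {j // r j i} => (ℵ₀ : Cardinal.{u})) := by
        apply Cardinal.sum_le_sum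
        intro j
        exact Cardinal.mk_le_aleph0
      have h3 : Cardinal.sum (fun _ : {j // r j i} => (ℵ₀ : Cardinal.{u})) =
          #{j // r j i} * ℵ₀ := by
        rw [Cardinal.sum_const']
      have h4 : #{j // r j i} * ℵ₀ ≤ max (max #{j // r j i} ℵ₀) ℵ₀ := Cardinal.mul_le_max _ _
      refine (h1.trans (h2.trans (h3.le.trans h4))).trans_lt ?_
      exact max_lt (max_lt (hinit i) hκ) hκ
    have hex : ∃ t ∈ T i, Disjoint (t : Set K) (⋃ j : {j // r j i}, (f j.1 : Set K)) :=
      hT i _ hcard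
    have hfi : f i = Classical.choose hex := by
      rw [hf i]
      exact dif_pos hex
    rw [hfi]
    exact Classical.choose_spec hex
  refine ⟨f, fun i => (key i).1, ?_⟩
  have hdis : ∀ i j, r j i → Disjoint (f i) (f j) := by
    intro i j hji
    have := (key i).2
    rw [disjoint_iUnion_right] at this
    exact_mod_cast this ⟨j, hji⟩
  intro i j hij
  rcases trichotomous_of r i j with h | h | h
  · exact (hdis j i h).symm
  · exact absurd h hij
  · exact hdis i j h

theorem mk_isClosed_le (E : Type) [TopologicalSpace E] [SecondCountableTopology E] :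
    #{F : Set E // IsClosed F} ≤ 𝔠 := by
  let b := TopologicalSpace.countableBasis E
  have hb : b.Countable := TopologicalSpace.countable_countableBasis E
  let g : {F : Set E // IsClosed F} → Set b := fun F => {U | (U : Set E) ⊆ (F : Set E)ᶜ}
  have hg : Injective g := by
    intro F G hFG
    have hmem : ∀ F : {F : Set E // IsClosed F}, ∀ x, x ∈ (F : Set E)ᶜ ↔ ∃ U ∈ g F, x ∈ (U : Set E) := by
      intro F x
      constructor
      · intro hx
        obtain ⟨V, hVb, hxV, hV⟩ := (TopologicalSpace.isBasis_countableBasis E).exists_subset_of_mem_open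
          hx F.2.isOpen_compl
        exact ⟨⟨V, hVb⟩, hV, hxV⟩
      · rintro ⟨U, hU, hx⟩
        exact hU hx
    apply Subtype.ext
    apply compl_injective
    ext x
    rw [hmem F, hmem G, hFG]
  have h1 : #{F : Set E // IsClosed F} ≤ #(Set b) := Cardinal.mk_le_of_injective hg
  refine h1.trans ?_
  rw [Cardinal.mk_set]
  have : #b ≤ ℵ₀ := by
    have := hb.to_subtype
    exact Cardinal.mk_le_aleph0
  calc (2 : Cardinal) ^ #b ≤ 2 ^ ℵ₀ := Cardinal.power_le_power_left two_ne_zero this
    _ = 𝔠 := Cardinal.two_power_aleph0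

theorem exists_disjoint_family' {K : Type*} [TopologicalSpace K] [PolishSpace K] {n : ℕ}
    {F : Set (Fin n → K)} (hF : IsClosed F)
    (hs : ¬ Small F) : ∃ f : (ℕ → Bool) → (Fin n → K), (∀ a, f a ∈ F) ∧
      ∀ a b, a ≠ b → ∀ i j, f a i ≠ f b j := by
  let := TopologicalSpace.upgradeIsCompletelyMetrizable K
  exact exists_disjoint_family hF hs

/-- The space we work over. -/
abbrev KK : Type := ℕ → Bool

instance : PolishSpace KK := ⟨⟩

/-- Generic colourings of Cantor space. -/
theorem exists_generic_coloring (C : Type) [Countable C] [Nonempty C] :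
    ∃ col : KK → C, ∀ (n : ℕ) (F : Set (Fin n → KK)) (g : Fin n → C), IsClosed F → ¬ Small F →
      (∀ x ∈ F, ∀ i j, x i = x j → g i = g j) → ¬ Small {x ∈ F | ∀ j, col (x j) = g j} := by
  classical
  let Task : Type := {p : (Σ n : ℕ, {F : Set (Fin n → KK) // IsClosed F} × (Fin n → C)) × KK //
    ¬ Small p.1.2.1.1 ∧ ∀ x ∈ p.1.2.1.1, ∀ i j, x i = x j → p.1.2.2 i = p.1.2.2 j}
  have hKK : #KK = 𝔠 := by simp [KK]
  have hTask : #Task ≤ 𝔠 := by
    refine (Cardinal.mk_subtype_le _).trans ?_
    rw [Cardinal.mk_prod, Cardinal.lift_id, Cardinal.lift_id, Cardinal.mk_sigma, hKK]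
    refine Cardinal.mul_le_of_le (Cardinal.aleph0_le_continuum) ?_ le_rfl
    have hn : ∀ n : ℕ, #({F : Set (Fin n → KK) // IsClosed F} × (Fin n → C)) ≤ 𝔠 := by
      intro n
      rw [Cardinal.mk_prod, Cardinal.lift_id, Cardinal.lift_id]
      refine Cardinal.mul_le_of_le (Cardinal.aleph0_le_continuum) (mk_isClosed_le _) ?_
      exact (Cardinal.mk_le_aleph0).trans Cardinal.aleph0_le_continuum
    calc Cardinal.sum (fun n : ℕ => #({F : Set (Fin n → KK) // IsClosed F} × (Fin n → C)))
        ≤ Cardinal.sum (fun _ : ℕ => 𝔠) := Cardinal.sum_le_sum _ _ hn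
      _ = ℵ₀ * 𝔠 := by rw [Cardinal.sum_const']; simp
      _ ≤ 𝔠 := Cardinal.mul_le_of_le (Cardinal.aleph0_le_continuum) Cardinal.aleph0_le_continuum le_rfl
  let T : Task → Set (Finset KK) := fun p =>
    {t | ∃ x ∈ p.1.1.2.1.1, t = Finset.univ.image x}
  have hT : ∀ i, ∀ S : Set KK, #S < 𝔠 → ∃ t ∈ T i, Disjoint (t : Set KK) S := by
    intro p S hS
    obtain ⟨f, hfF, hfd⟩ := exists_disjoint_family' p.1.1.2.1.2 p.2.1
    by_contra hcon
    push Not at hcon
    have h1 : ∀ a : KK, ∃ j, f a j ∈ S := by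
      intro a
      have := hcon (Finset.univ.image (f a)) ⟨f a, hfF a, rfl⟩
      rw [Set.not_disjoint_iff] at this
      obtain ⟨v, hv, hvS⟩ := this
      simp only [Finset.coe_image, Finset.coe_univ, image_univ, mem_range] at hv
      obtain ⟨j, rfl⟩ := hv
      exact ⟨j, hvS⟩
    choose j hj using h1
    have hinj : Injective (fun a : KK => (⟨f a (j a), hj a⟩ : S)) := by
      intro a b hab
      by_contra hne
      exact hfd a b hne (j a) (j b) (congrArg Subtype.val hab)
    have := Cardinal.mk_le_of_injective hinj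
    rw [hKK] at this
    exact absurd hS (not_lt.2 this)
  obtain ⟨f, hfT, hfd⟩ := exists_pairwise_disjoint_choice (Cardinal.aleph0_lt_continuum) hTask T hT
  choose x hxF hfx using hfT
  -- x p : Fin p.1.1.1 → KK
  let col : KK → C := fun v =>
    if h : ∃ q : Σ p : Task, Fin p.1.1.1, x q.1 q.2 = v then
      (Classical.choose h).1.1.1.2.2 (Classical.choose h).2
    else Classical.arbitrary C
  have hcol : ∀ (p : Task) (j : Fin p.1.1.1), col (x p j) = p.1.1.2.2 j := by
    intro p j
    have hex : ∃ q : Σ p : Task, Fin p.1.1.1, x q.1 q.2 = x p j := ⟨⟨p, j⟩, rfl⟩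
    have h1 : col (x p j) = (Classical.choose hex).1.1.1.2.2 (Classical.choose hex).2 := dif_pos hex
    rw [h1]
    have hspec := Classical.choose_spec hex
    generalize Classical.choose hex = q at hspec
    obtain ⟨p', j'⟩ := q
    simp only at hspec ⊢
    by_cases hp : p' = p
    · subst hp
      exact p'.2.2 _ (hxF p') _ _ hspec
    · exfalso
      have := hfd p' p hp
      rw [Finset.disjoint_left] at this
      apply this (a := x p j)
      · rw [hfx p', Finset.mem_image]
        exact ⟨j', Finset.mem_univ _, hspec⟩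
      · rw [hfx p, Finset.mem_image]
        exact ⟨j, Finset.mem_univ _, rfl⟩
  refine ⟨col, ?_⟩
  intro n F g hF hs hcompat hsm
  obtain ⟨Q, hQ, hQx⟩ := hsm
  let p : KK → Task := fun t => ⟨⟨⟨n, ⟨F, hF⟩, g⟩, t⟩, hs, hcompat⟩
  have hp : ∀ t, ∃ j : Fin n, x (p t) j ∈ Q := by
    intro t
    exact hQx (x (p t)) ⟨hxF (p t), fun j => hcol (p t) j⟩
  choose j hj using hp
  have hinj : Injective (fun t : KK => (⟨x (p t) (j t), hj t⟩ : Q)) := by
    intro a b hab
    by_contra hne
    have hpab : p a ≠ p b := by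
      intro h
      apply hne
      exact congrArg (fun q : Task => q.1.2) h
    have hab' : x (p a) (j a) = x (p b) (j b) := congrArg Subtype.val hab
    have := hfd _ _ hpab
    rw [Finset.disjoint_left] at this
    apply this (a := x (p a) (j a))
    · rw [hfx (p a), Finset.mem_image]
      exact ⟨j a, Finset.mem_univ _, rfl⟩
    · rw [hfx (p b), Finset.mem_image, hab']
      exact ⟨j b, Finset.mem_univ _, rfl⟩
  have h1 := Cardinal.mk_le_of_injective hinj
  have h2 : #Q ≤ ℵ₀ := by
    have := hQ.to_subtype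
    exact Cardinal.mk_le_aleph0
  rw [hKK] at h1
  exact absurd (h1.trans h2) (not_le.2 Cardinal.aleph0_lt_continuum)

end Pool.Agent.H.MP_60be70_gt
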