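import Pool.Agent.H.MP_60be70_gt.Choice

open Set Filter Metric Function Topology

namespace Pool.Agent.H.MP_60be70_gt

/-- Consequence of genericity used in all covering arguments. -/
theorem small_of_generic {C : Type} [Countable C] {col : KK → C}
    (hcol : ∀ (n : ℕ) (F : Set (Fin n → KK)) (g : Fin n → C), IsClosed F → ¬ Small F →
      (∀ x ∈ F, ∀ i j, x i = x j → g i = g j) → ¬ Small {x ∈ F | ∀ j, col (x j) = g j})
    {n : ℕ} {F : Set (Fin n → KK)} (hF : IsClosed F) (G : Set (Fin n → C))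
    (hG : ∀ x ∈ F, (fun j => col (x j)) ∉ G) :
    Small {x ∈ F | ∃ g ∈ G, ∀ i j, x i = x j → g i = g j} := by
  let := TopologicalSpace.upgradeIsCompletelyMetrizable (Fin n → KK)
  have key : ∀ g ∈ G, Small {x ∈ F | ∀ i j, x i = x j → g i = g j} := by
    intro g hg
    have hopen : IsOpen {x : Fin n → KK | ∀ i j, x i = x j → g i = g j} := by
      have : {x : Fin n → KK | ∀ i j, x i = x j → g i = g j} =
          ⋂ i, ⋂ j, {x : Fin n → KK | x i = x j → g i = g j} := by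
        ext x; simp
      rw [this]
      refine isOpen_iInter_of_finite fun i => isOpen_iInter_of_finite fun j => ?_
      by_cases h : g i = g j
      · simp [h]
      · have : {x : Fin n → KK | x i = x j → g i = g j} = {x : Fin n → KK | x i = x j}ᶜ := by
          ext x; simp [h]
        rw [this]
        exact (isClosed_eq (continuous_apply i) (continuous_apply j)).isOpen_compl
    obtain ⟨E, hEc, hEs, hEu, -⟩ := hopen.exists_iUnion_isClosed
    have : {x ∈ F | ∀ i j, x i = x j → g i = g j} = ⋃ m, (F ∩ E m) := by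
      rw [← inter_iUnion, hEu]; rfl
    rw [this]
    refine Small.iUnion fun m => ?_
    by_contra hns
    have := hcol n (F ∩ E m) g (hF.inter (hEc m)) hns (fun x hx => hEs m hx.2)
    apply this
    refine ⟨∅, countable_empty, ?_⟩
    rintro x ⟨⟨hxF, -⟩, hx⟩
    exfalso
    apply hG x hxF
    have : (fun j => col (x j)) = g := funext hx
    rw [this]
    exact hg
  have hfin : {x ∈ F | ∃ g ∈ G, ∀ i j, x i = x j → g i = g j} =
      ⋃ g : G, {x ∈ F | ∀ i j, x i = x j → (g : Fin n → C) i = (g : Fin n → C) j} := by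
    ext x
    simp only [mem_iUnion, Subtype.exists, exists_prop, mem_ofPred_eq]
    constructor
    · rintro ⟨hx, g, hg, h⟩
      exact ⟨g, hg, hx, h⟩
    · rintro ⟨g, hg, hx, h⟩
      exact ⟨hx, g, hg, h⟩
  rw [hfin]
  exact Small.iUnion fun g => key g g.2

/-- Each colour class is uncountable. -/
theorem uncountable_of_generic {C : Type} {col : KK → C}
    (hcol : ∀ (n : ℕ) (F : Set (Fin n → KK)) (g : Fin n → C), IsClosed F → ¬ Small F →
      (∀ x ∈ F, ∀ i j, x i = x j → g i = g j) → ¬ Small {x ∈ F | ∀ j, col (x j) = g j})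
    (c : C) : ¬ {v : KK | col v = c}.Countable := by
  intro hc
  have h4 : Cardinal.mk KK = Cardinal.continuum := by simp [KK]
  have hns : ¬ Small (univ : Set (Fin 1 → KK)) := by
    rintro ⟨Q, hQ, h⟩
    have : (univ : Set KK).Countable := by
      refine hQ.mono ?_
      intro v _
      obtain ⟨j, hj⟩ := h (fun _ => v) (mem_univ _)
      exact hj
    have h2 := (Set.countable_univ_iff.1 this)
    have h3 : Cardinal.mk KK ≤ Cardinal.aleph0 := Cardinal.mk_le_aleph0
    rw [h4] at h3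
    exact absurd h3 (not_le.2 Cardinal.aleph0_lt_continuum)
  have := hcol 1 univ (fun _ => c) isClosed_univ hns (fun _ _ _ _ _ => rfl)
  apply this
  exact ⟨_, hc, fun x hx => ⟨0, hx.2 0⟩⟩

/-- Closed sets disjoint from a colour class are countable. -/
theorem countable_of_generic {C : Type} [Countable C] {col : KK → C}
    (hcol : ∀ (n : ℕ) (F : Set (Fin n → KK)) (g : Fin n → C), IsClosed F → ¬ Small F →
      (∀ x ∈ F, ∀ i j, x i = x j → g i = g j) → ¬ Small {x ∈ F | ∀ j, col (x j) = g j})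
    (c : C) {E : Set KK} (hE : IsClosed E) (hdis : ∀ v ∈ E, col v ≠ c) : E.Countable := by
  by_contra hunc
  let F : Set (Fin 1 → KK) := {x | x 0 ∈ E}
  have hF : IsClosed F := hE.preimage (continuous_apply 0)
  have hns : ¬ Small F := by
    rintro ⟨Q, hQ, h⟩
    apply hunc
    refine hQ.mono ?_
    intro v hv
    obtain ⟨j, hj⟩ := h (fun _ => v) hv
    exact hj
  apply hcol 1 F (fun _ => c) hF hns (fun _ _ _ _ _ => rfl)
  exact ⟨∅, countable_empty, fun x hx => absurd (hx.2 0) (hdis _ hx.1)⟩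

section ZeroDim

variable {Y : Type*} [TopologicalSpace Y]

/-- Every neighbourhood contains a clopen neighbourhood. -/
def ZD (Y : Type*) [TopologicalSpace Y] : Prop :=
  ∀ x : Y, ∀ U ∈ 𝓝 x, ∃ V ⊆ U, IsClopen V ∧ x ∈ V

theorem ZD.regularSpace (h : ZD Y) : RegularSpace Y := by
  refine RegularSpace.of_exists_mem_nhds_isClosed_subset fun x U hU => ?_
  obtain ⟨V, hVU, hV, hx⟩ := h x U hU
  exact ⟨V, hV.isOpen.mem_nhds hx, hV.isClosed, hVU⟩

theorem ZD.pi {n : ℕ} (h : ZD Y) : ZD (Fin n → Y) := by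
  intro x U hU
  rw [nhds_pi, Filter.mem_pi] at hU
  obtain ⟨I, hI, t, ht, htU⟩ := hU
  choose V hVt hV hxV using fun i => h (x i) (t i) (ht i)
  refine ⟨⋂ i, (fun y : Fin n → Y => y i) ⁻¹' V i, ?_, ?_, ?_⟩
  · intro y hy
    apply htU
    intro i _
    exact hVt i (mem_iInter.1 hy i)
  · exact isClopen_iInter_of_finite fun i => (hV i).preimage (continuous_apply i)
  · exact mem_iInter.2 fun i => hxV i

/-- `A` has, for every neighbourhood assignment, a partition into open sets refining it. -/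
def UPon (A : Set Y) : Prop :=
  ∀ U : Y → Set Y, (∀ y, IsOpen (U y) ∧ y ∈ U y) → ∃ B : Y → Set Y, ∀ y ∈ A,
    IsOpen (B y) ∧ y ∈ B y ∧ B y ⊆ A ∧ (∀ z ∈ B y, B z = B y) ∧ ∃ x, B y ⊆ U x

theorem UPon.of_lindelof (h : ZD Y) {A : Set Y} (hA : IsOpen A) (hL : IsLindelof A) :
    UPon A := by
  classical
  intro U hU
  rcases A.eq_empty_or_nonempty with rfl | hne
  · exact ⟨fun _ => ∅, fun y hy => absurd hy (notMem_empty _)⟩
  have h1 : ∀ y : Y, ∃ V : Set Y, y ∈ A → (V ⊆ U y ∩ A ∧ IsClopen V ∧ y ∈ V) := by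
    intro y
    by_cases hy : y ∈ A
    · obtain ⟨V, h1, h2, h3⟩ := h y (U y ∩ A) (((hU y).1.inter hA).mem_nhds ⟨(hU y).2, hy⟩)
      exact ⟨V, fun _ => ⟨h1, h2, h3⟩⟩
    · exact ⟨∅, fun h => absurd h hy⟩
  choose V hV using h1
  obtain ⟨t, htc, htA, hcov⟩ := hL.elim_nhds_subcover V
    (fun y hy => (hV y hy).2.1.isOpen.mem_nhds (hV y hy).2.2)
  have htne : t.Nonempty := by
    obtain ⟨a, ha⟩ := hne
    obtain ⟨y, hy, -⟩ := mem_iUnion₂.1 (hcov ha)
    exact ⟨y, hy⟩
  obtain ⟨e, he⟩ := htc.exists_eq_range htne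
  have heA : ∀ i, e i ∈ A := fun i => htA (e i) (he ▸ mem_range_self i)
  have hcov' : ∀ y ∈ A, ∃ i, y ∈ V (e i) := by
    intro y hy
    obtain ⟨z, hz, hyz⟩ := mem_iUnion₂.1 (hcov hy)
    rw [he] at hz
    obtain ⟨i, rfl⟩ := hz
    exact ⟨i, hyz⟩
  let idx : Y → ℕ := fun y => if h : ∃ i, y ∈ V (e i) then Nat.find h else 0
  have hidx : ∀ y ∈ A, y ∈ V (e (idx y)) ∧ ∀ j < idx y, y ∉ V (e j) := by
    intro y hy
    have hex := hcov' y hy
    have : idx y = Nat.find hex := dif_pos hex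
    rw [this]
    exact ⟨Nat.find_spec hex, fun j hj => Nat.find_min hex hj⟩
  let E : ℕ → Set Y := fun i => V (e i) \ ⋃ j : Fin i, V (e j)
  have hEidx : ∀ i, ∀ y ∈ E i, idx y = i := by
    intro i y hy
    have hyA : y ∈ A := ((hV (e i) (heA i)).1 hy.1).2
    obtain ⟨h1, h2⟩ := hidx y hyA
    rcases lt_trichotomy (idx y) i with hlt | heq | hgt
    · exact absurd (mem_iUnion.2 ⟨⟨idx y, hlt⟩, h1⟩) hy.2
    · exact heq
    · exact absurd hy.1 (h2 i hgt)
  refine ⟨fun y => E (idx y), fun y hy => ⟨?_, ?_, ?_, ?_, ?_⟩⟩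
  · refine IsOpen.sdiff (hV _ (heA _)).2.1.isOpen ?_
    exact isClosed_iUnion_of_finite fun j => (hV _ (heA _)).2.1.isClosed
  · obtain ⟨h1, h2⟩ := hidx y hy
    refine ⟨h1, ?_⟩
    intro hmem
    obtain ⟨j, hj⟩ := mem_iUnion.1 hmem
    exact h2 j j.2 hj
  · intro z hz
    exact ((hV _ (heA _)).1 hz.1).2
  · intro z hz
    show E (idx z) = E (idx y)
    rw [hEidx _ z hz]
  · exact ⟨e (idx y), fun z hz => ((hV _ (heA _)).1 hz.1).1⟩

theorem UPon.glue {κ : Type*} {A : Set Y} (π : Y → κ)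
    (h : ∀ c, UPon {y ∈ A | π y = c}) : UPon A := by
  intro U hU
  choose B hB using fun c => h c U hU
  refine ⟨fun y => B (π y) y, fun y hy => ?_⟩
  obtain ⟨h1, h2, h3, h4, h5⟩ := hB (π y) y ⟨hy, rfl⟩
  refine ⟨h1, h2, fun z hz => (h3 hz).1, ?_, h5⟩
  intro z hz
  have : π z = π y := (h3 hz).2
  show B (π z) z = B (π y) y
  rw [this]
  exact h4 z hz

theorem UPon.paracompactSpace (h : UPon (univ : Set Y)) : ParacompactSpace Y := by
  refine ⟨fun α s hs hcov => ?_⟩
  have hx : ∀ y : Y, ∃ a, y ∈ s a := fun y => mem_iUnion.1 (hcov ▸ mem_univ y)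
  choose a ha using hx
  obtain ⟨B, hB⟩ := h (fun y => s (a y)) (fun y => ⟨hs _, ha y⟩)
  refine ⟨{S : Set Y // ∃ y, B y = S}, fun S => S.1, ?_, ?_, ?_, ?_⟩
  · rintro ⟨_, y, rfl⟩
    exact (hB y (mem_univ _)).1
  · refine eq_univ_of_forall fun y => ?_
    exact mem_iUnion.2 ⟨⟨B y, y, rfl⟩, (hB y (mem_univ _)).2.1⟩
  · intro y
    refine ⟨B y, (hB y (mem_univ _)).1.mem_nhds (hB y (mem_univ _)).2.1, ?_⟩
    refine (finite_singleton (⟨B y, y, rfl⟩ : {S : Set Y // ∃ y, B y = S})).subset ?_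
    rintro ⟨_, z, rfl⟩ ⟨w, hw1, hw2⟩
    rw [mem_singleton_iff]
    apply Subtype.ext
    show B z = B y
    rw [← (hB z (mem_univ _)).2.2.2.1 w hw1, ← (hB y (mem_univ _)).2.2.2.1 w hw2]
  · rintro ⟨_, y, rfl⟩
    obtain ⟨x, hx⟩ := (hB y (mem_univ _)).2.2.2.2
    exact ⟨a x, hx⟩

/-- Transfer from `Y^n` to open subsets of slices of `Y^(n+1)`. -/
theorem UPon.slice {n : ℕ} (h : UPon (univ : Set (Fin n → Y))) (j : Fin (n + 1)) (c : Y)
    {A : Set (Fin (n + 1) → Y)} (hA : IsOpen A) (hAc : ∀ y ∈ A, y j = c) : UPon A := by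
  intro U hU
  have hins : Continuous (fun z : Fin n → Y => (j.insertNth c z : Fin (n + 1) → Y)) :=
    continuous_const.finInsertNth j continuous_id
  have hrem : Continuous (fun y : Fin (n + 1) → Y => (fun i => y (j.succAbove i) : Fin n → Y)) :=
    continuous_pi fun i => continuous_apply _
  obtain ⟨B, hB⟩ := h (fun z => (fun z : Fin n → Y => (j.insertNth c z : Fin (n + 1) → Y)) ⁻¹'
    (U (j.insertNth c z))) (fun z => ⟨(hU _).1.preimage hins, (hU _).2⟩)
  have hback : ∀ y ∈ A, (j.insertNth c (fun i => y (j.succAbove i)) : Fin (n + 1) → Y) = y := by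
    intro y hy
    ext i
    refine Fin.succAboveCases j ?_ (fun i => ?_) i
    · rw [Fin.insertNth_apply_same, hAc y hy]
    · rw [Fin.insertNth_apply_succAbove]
  refine ⟨fun y => A ∩ {z | (fun i => z (j.succAbove i)) ∈ B (fun i => y (j.succAbove i))},
    fun y hy => ?_⟩
  obtain ⟨h1, h2, h3, h4, x, h5⟩ := hB (fun i => y (j.succAbove i)) (mem_univ _)
  refine ⟨hA.inter (h1.preimage hrem), ⟨hy, h2⟩, inter_subset_left, ?_, ⟨j.insertNth c x, ?_⟩⟩
  · rintro z ⟨hz, hz'⟩
    have := h4 _ hz'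
    simp only [this]
  · rintro z ⟨hz, hz'⟩
    have := h5 hz'
    rw [mem_preimage, hback z hz] at this
    exact this

end ZeroDim

end Pool.Agent.H.MP_60be70_gt
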