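import Pool.Agent.H.MP_60be70_gt.Space

open Set Filter Function Topology

namespace Pool.Agent.H.MP_60be70_gt

variable {k m : ℕ} {col : KK → Cl k m}

/-- The genericity property of the colouring. -/
def Generic {C : Type} (col : KK → C) : Prop :=
  ∀ (n : ℕ) (F : Set (Fin n → KK)) (g : Fin n → C), IsClosed F → ¬ Small F →
      (∀ x ∈ F, ∀ i j, x i = x j → g i = g j) → ¬ Small {x ∈ F | ∀ j, col (x j) = g j}

/-- The slices of the non-diagonal part are continuous images of closed subsets of the
non-diagonal part of the smaller power. -/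
theorem slice_lindelof (hk : 0 < k) {n : ℕ} (h : IsLindelof (DD col n)ᶜ) (j : Fin (n + 1))
    (q : Ix k m × KK) : IsLindelof {y : Fin (n + 1) → XX col | y ∈ (DD col (n + 1))ᶜ ∧ (y j).1 = q} := by
  by_cases hq : Mem q.1 (col q.2)
  · let c : XX col := ⟨q, hq⟩
    let ins : (Fin n → XX col) → (Fin (n + 1) → XX col) := fun z => j.insertNth c z
    have hins : Continuous ins := continuous_const.finInsertNth j continuous_id
    have h1 : {y : Fin (n + 1) → XX col | y ∈ (DD col (n + 1))ᶜ ∧ (y j).1 = q} =
        ins '' (ins ⁻¹' (DD col (n + 1))ᶜ) := by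
      ext y
      constructor
      · rintro ⟨hy, hyj⟩
        have hyj : y j = c := Subtype.ext hyj
        have hback : ins (fun i => y (j.succAbove i)) = y := by
          ext1 i
          refine Fin.succAboveCases j ?_ (fun i => ?_) i
          · simp only [ins, Fin.insertNth_apply_same, hyj]
          · simp only [ins, Fin.insertNth_apply_succAbove]
        refine ⟨fun i => y (j.succAbove i), ?_, hback⟩
        rw [mem_preimage, hback]
        exact hy
      · rintro ⟨z, hz, rfl⟩
        refine ⟨hz, ?_⟩
        simp only [ins, Fin.insertNth_apply_same]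
        rfl
    rw [h1]
    refine IsLindelof.image ?_ hins
    refine h.of_isClosed_subset ((DD_open hk _).isClosed_compl.preimage hins) ?_
    intro z hz hzD
    apply hz
    obtain ⟨w, hw⟩ := hzD
    refine ⟨w, fun i => ?_⟩
    obtain ⟨j', hj'⟩ := hw i
    refine ⟨j.succAbove j', ?_⟩
    simp only [ins, Fin.insertNth_apply_succAbove]
    exact hj'
  · have : {y : Fin (n + 1) → XX col | y ∈ (DD col (n + 1))ᶜ ∧ (y j).1 = q} = ∅ := by
      rw [eq_empty_iff_forall_notMem]
      rintro y ⟨-, hy⟩
      apply hq
      rw [← hy]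
      exact (y j).2
    rw [this]
    exact isLindelof_empty

/-- Assignability of the complement of the diagonal part. -/
theorem assign {n : ℕ} (hn : m = 0 ∨ n < m) {y : Fin n → XX col} (hy : y ∉ DD col n)
    (w : KK) : ∃ c : Cl k m, ∀ j, (y j).1.2 = w → Mem (y j).1.1 c ∧ ¬ Isol (y j).1.1 c := by
  by_cases hJ : ∃ j, (y j).1.2 = w
  swap
  · exact ⟨Sum.inl none, fun j hj => absurd ⟨j, hj⟩ hJ⟩
  have hmem : ∀ j, (y j).1.2 = w → Mem (y j).1.1 (col w) := by
    intro j hj
    have := (y j).2
    rw [hj] at this
    exact this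
  rcases hc : col w with (_ | i) | e
  · have h1 : ∃ i : Fin k, ∀ j, (y j).1 ≠ (Sum.inl i, w) := by
      by_contra hcon
      push Not at hcon
      exact hy ⟨w, hcon⟩
    obtain ⟨i, hi⟩ := h1
    refine ⟨Sum.inl (some i), fun j hj => ?_⟩
    have h2 := hmem j hj
    rw [hc] at h2
    rcases hχ : (y j).1.1 with i' | e'
    · refine ⟨?_, fun h => h.elim⟩
      show i ≠ i'
      rintro rfl
      exact hi j (Prod.ext hχ hj)
    · rw [hχ] at h2
      exact h2.elim
  · refine ⟨Sum.inl (some i), fun j hj => ?_⟩
    have h2 := hmem j hj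
    rw [hc] at h2
    refine ⟨h2, ?_⟩
    rcases hχ : (y j).1.1 with i' | e'
    · exact fun h => h.elim
    · exact fun h => h.elim
  · have hn' : n < m := by
      rcases hn with rfl | h
      · exact e.elim0
      · exact h
    have h1 : ∃ e' : Fin m, ∀ j, (y j).1.1 ≠ Sum.inr e' := by
      by_contra hcon
      push Not at hcon
      choose f hf using hcon
      have hinj : Injective f := by
        intro a b hab
        have := (hf a).symm.trans ((congrArg (fun j => (y j).1.1) hab).trans (hf b))
        exact Sum.inr_injective this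
      have := Fintype.card_le_of_injective f hinj
      simp only [Fintype.card_fin] at this
      omega
    obtain ⟨e', he'⟩ := h1
    refine ⟨Sum.inr e', fun j hj => ?_⟩
    have h2 := hmem j hj
    rw [hc] at h2
    rcases hχ : (y j).1.1 with i' | e''
    · rw [hχ] at h2
      exact h2.elim
    · refine ⟨trivial, ?_⟩
      intro h
      have h : e' = e'' := h
      exact he' j (by rw [hχ, h])

theorem not_DD_of_regular {n : ℕ} (hk : 0 < k) {x : Fin n → XX col}
    (hx : ∀ j, x j ∉ isoPts col) : x ∉ DD col n := by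
  intro h
  rw [DD_eq hk] at h
  obtain ⟨j, hj⟩ := mem_iUnion.1 h
  exact hx j (QQ_iso hj)

theorem compl_DD_lindelof (hcol : Generic col) (hk : 0 < k) :
    ∀ n : ℕ, (m = 0 ∨ n < m) → IsLindelof (DD col n)ᶜ
  | 0, _ => (Set.subsingleton_of_subsingleton).isLindelof
  | n + 1, hn => by
    have ih : IsLindelof (DD col n)ᶜ := compl_DD_lindelof hcol hk n (by omega)
    refine isLindelof_of_countable_subcover fun {ι} U hU hcov => ?_
    let R : Set (Fin (n + 1) → XX col) := {x | ∀ j, x j ∉ isoPts col}
    have h1 : ∀ x : R, ∃ i : ι, x.1 ∈ U i := fun x =>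
      mem_iUnion.1 (hcov (not_DD_of_regular hk x.2))
    choose idx hidx using h1
    have h2 : ∀ x : R, ∃ O : Set (Fin (n + 1) → Ix k m × KK), IsOpen O ∧ (fun j => (x.1 j).1) ∈ O ∧
      ∀ y : Fin (n + 1) → XX col, (fun j => (y j).1) ∈ O → y ∈ U (idx x) := fun x =>
      nhds_tuple x.2 ((hU _).mem_nhds (hidx x))
    choose O hO hxO hOU using h2
    obtain ⟨T, hTc, hT⟩ := TopologicalSpace.isOpen_iUnion_countable O hO
    let W := ⋃ x, O x
    have hW : IsOpen W := isOpen_iUnion hO
    -- the closed sets
    let Fχ : (Fin (n + 1) → Ix k m) → Set (Fin (n + 1) → KK) := fun χ =>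
      {v | (fun j => (χ j, v j)) ∈ Wᶜ}
    have hFχ : ∀ χ, IsClosed (Fχ χ) := by
      intro χ
      refine hW.isClosed_compl.preimage ?_
      exact continuous_pi fun j => continuous_const.prodMk (continuous_apply j)
    let Gχ : (Fin (n + 1) → Ix k m) → Set (Fin (n + 1) → Cl k m) := fun χ =>
      {g | ∀ j, Mem (χ j) (g j) ∧ ¬ Isol (χ j) (g j)}
    have hsmall : ∀ χ, Small {x ∈ Fχ χ | ∃ g ∈ Gχ χ, ∀ i j, x i = x j → g i = g j} := by
      intro χ
      refine small_of_generic hcol (hFχ χ) (Gχ χ) ?_
      intro v hv hg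
      apply hv
      let x : Fin (n + 1) → XX col := fun j => ⟨(χ j, v j), (hg j).1⟩
      have hx : x ∈ R := fun j => (hg j).2
      exact mem_iUnion.2 ⟨⟨x, hx⟩, hxO ⟨x, hx⟩⟩
    choose Q hQc hQ using hsmall
    let Q' : Set KK := ⋃ χ, Q χ
    have hQ'c : Q'.Countable := countable_iUnion hQc
    let SL : Set (Fin (n + 1) → XX col) := ⋃ p : Fin (n + 1) × Ix k m × Q',
      {y : Fin (n + 1) → XX col | y ∈ (DD col (n + 1))ᶜ ∧ (y p.1).1 = (p.2.1, (p.2.2 : KK))}
    have hSL : IsLindelof SL := by
      have := hQ'c.to_subtype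
      exact isLindelof_iUnion fun p => slice_lindelof hk ih p.1 _
    have hSLsub : SL ⊆ ⋃ i, U i := by
      refine Subset.trans ?_ hcov
      exact iUnion_subset fun p y hy => hy.1
    obtain ⟨t', ht'c, ht'⟩ := hSL.elim_countable_subcover U hU hSLsub
    refine ⟨idx '' T ∪ t', (hTc.image _).union ht'c, ?_⟩
    intro y hy
    by_cases hyW : (fun j => (y j).1) ∈ W
    · have : (fun j => (y j).1) ∈ ⋃ i ∈ T, O i := by rw [hT]; exact hyW
      obtain ⟨x, hxT, hyx⟩ := mem_iUnion₂.1 this
      exact mem_iUnion₂.2 ⟨idx x, Or.inl ⟨x, hxT, rfl⟩, hOU x y hyx⟩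
    · have hyS : y ∈ SL := by
        choose γ hγ using assign hn hy
        have h1 : (fun j => (y j).1.2) ∈ {x ∈ Fχ (fun j => (y j).1.1) |
            ∃ g ∈ Gχ (fun j => (y j).1.1), ∀ i j, x i = x j → g i = g j} := by
          refine ⟨hyW, fun j => γ (y j).1.2, fun j => hγ _ j rfl, fun i j hij => ?_⟩
          simp only at hij
          simp only [hij]
        obtain ⟨j, hj⟩ := hQ _ _ h1
        exact mem_iUnion.2 ⟨(j, (y j).1.1, ⟨(y j).1.2, mem_iUnion.2 ⟨_, hj⟩⟩), hy, rfl⟩
      obtain ⟨i, hi, hyi⟩ := mem_iUnion₂.1 (ht' hyS)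
      exact mem_iUnion₂.2 ⟨i, Or.inr hi, hyi⟩

theorem upon_univ (hcol : Generic col) (hk : 0 < k) :
    ∀ n : ℕ, (m = 0 ∨ n < m) → UPon (univ : Set (Fin n → XX col))
  | 0, _ => UPon.of_lindelof XX_zd.pi isOpen_univ (Set.subsingleton_of_subsingleton).isLindelof
  | n + 1, hn => by
    classical
    have ih : UPon (univ : Set (Fin n → XX col)) := upon_univ hcol hk n (by omega)
    let π : (Fin (n + 1) → XX col) → (Fin (n + 1) → Option (XX col)) := fun x j =>
      if x ∈ QQ col hk j then some (x j) else none
    refine UPon.glue π fun c => ?_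
    have hfib : {y : Fin (n + 1) → XX col | y ∈ univ ∧ π y = c} = ⋂ j, {y | π y j = c j} := by
      ext y
      simp only [mem_univ, true_and, mem_iInter]
      exact funext_iff
    have hopen : IsOpen {y : Fin (n + 1) → XX col | y ∈ univ ∧ π y = c} := by
      rw [hfib]
      refine isOpen_iInter_of_finite fun j => ?_
      rcases hcj : c j with _ | a
      · have : {y : Fin (n + 1) → XX col | π y j = none} = (QQ col hk j)ᶜ := by
          ext y
          simp [π]
        rw [this]
        exact (QQ_closed j).isOpen_compl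
      · have : {y : Fin (n + 1) → XX col | π y j = some a} = QQ col hk j ∩ {y | y j = a} := by
          ext y
          simp [π]
        rw [this]
        by_cases ha : a ∈ isoPts col
        · exact (QQ_open j).inter (isOpen_eq_iso j ha)
        · have : QQ col hk j ∩ {y | y j = a} = ∅ := by
            rw [eq_empty_iff_forall_notMem]
            rintro y ⟨hy, rfl⟩
            exact ha (QQ_iso hy)
          rw [this]
          exact isOpen_empty
    by_cases hc : ∃ j a, c j = some a
    · obtain ⟨j, a, hja⟩ := hc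
      refine UPon.slice ih j a hopen ?_
      rintro y ⟨-, hy⟩
      have h1 : π y j = some a := by rw [hy, hja]
      simp only [π] at h1
      split_ifs at h1 with h2
      exact Option.some_injective _ h1
    · have hcn : ∀ j, c j = none := by
        intro j
        rcases hcj : c j with _ | a
        · rfl
        · exact absurd ⟨j, a, hcj⟩ hc
      have : {y : Fin (n + 1) → XX col | y ∈ univ ∧ π y = c} = (DD col (n + 1))ᶜ := by
        rw [hfib, DD_eq hk, compl_iUnion]
        refine iInter_congr fun j => ?_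
        ext y
        simp [π, hcn j]
      rw [this]
      rw [this] at hopen
      exact UPon.of_lindelof XX_zd.pi hopen (compl_DD_lindelof hcol hk _ hn)

theorem paracompact_pow (hcol : Generic col) (hk : 0 < k) {n : ℕ} (hn : m = 0 ∨ n < m) :
    ParacompactSpace (Fin n → XX col) :=
  (upon_univ hcol hk n hn).paracompactSpace

theorem lindelof_pow (hcol : Generic col) {n : ℕ} (hn : m = 0 ∨ n < m) (hnk : n < k) :
    LindelofSpace (Fin n → XX col) := by
  have hk : 0 < k := by omega
  have h := compl_DD_lindelof hcol hk n hn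
  have hD : DD col n = ∅ := by
    rw [eq_empty_iff_forall_notMem]
    rintro x ⟨w, hw⟩
    choose f hf using hw
    have hinj : Injective f := by
      intro a b hab
      have h1 := (hf a).symm.trans ((congrArg (fun j => (x j).1) hab).trans (hf b))
      exact Sum.inl_injective (congrArg Prod.fst h1)
    have := Fintype.card_le_of_injective f hinj
    simp only [Fintype.card_fin] at this
    omega
  rw [hD, compl_empty] at h
  exact isLindelof_univ_iff.1 h

end Pool.Agent.H.MP_60be70_gt
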