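import Pool.Agent.H.MP_60be70_gt.Main

open Set Filter Function Topology

namespace Pool.Agent.H.MP_60be70_gt

variable {k m : ℕ} {col : KK → Cl k m}

/-- The point of `X` with index `inl i` over a point with colour `inl none`. -/
def ptS (col : KK → Cl k m) (i : Fin k) (w : KK) (hw : col w = Sum.inl none) : XX col :=
  ⟨(Sum.inl i, w), by rw [hw]; trivial⟩

theorem ptS_iso (i : Fin k) (w : KK) (hw : col w = Sum.inl none) :
    ptS col i w hw ∈ isoPts col := by
  show Isol (Sum.inl i) (col w)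
  rw [hw]
  trivial

theorem not_lindelof_pow (hcol : Generic col) {n : ℕ} (hk : 0 < k) (hkn : k ≤ n) :
    ¬ LindelofSpace (Fin n → XX col) := by
  classical
  intro hL
  have hunc := uncountable_of_generic hcol (Sum.inl none)
  have hne : ∃ w₀ : KK, col w₀ = Sum.inl none := by
    by_contra hcon
    push Not at hcon
    apply hunc
    have : {v : KK | col v = Sum.inl none} = ∅ := by
      rw [eq_empty_iff_forall_notMem]
      exact fun v hv => hcon v hv
    rw [this]
    exact countable_empty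
  obtain ⟨w₀, hw₀⟩ := hne
  let p₀ : XX col := ptS col ⟨0, hk⟩ w₀ hw₀
  let j₀ : Fin n := ⟨0, by omega⟩
  let Z : Set (Fin n → XX col) := {x | ∀ j : Fin n,
    (∀ h : (j : ℕ) < k, (x j).1 = (Sum.inl ⟨j, h⟩, (x j₀).1.2)) ∧ (¬ (j : ℕ) < k → x j = p₀)}
  have hv : ∀ j : Fin n, Continuous (fun x : Fin n → XX col => (x j).1) := fun j =>
    continuous_val.comp (continuous_apply j)
  have hZ : IsClosed Z := by
    have : Z = ⋂ j : Fin n, {x : Fin n → XX col |
      (∀ h : (j : ℕ) < k, (x j).1 = (Sum.inl ⟨j, h⟩, (x j₀).1.2)) ∧ (¬ (j : ℕ) < k → x j = p₀)} := by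
      ext x; simp [Z]
    rw [this]
    refine isClosed_iInter fun j => ?_
    by_cases hj : (j : ℕ) < k
    · have : {x : Fin n → XX col | (∀ h : (j : ℕ) < k, (x j).1 = (Sum.inl ⟨j, h⟩, (x j₀).1.2)) ∧
          (¬ (j : ℕ) < k → x j = p₀)} = {x | (x j).1 = (Sum.inl ⟨j, hj⟩, (x j₀).1.2)} := by
        ext x; simp [hj]
      rw [this]
      exact isClosed_eq (hv j) (continuous_const.prodMk (continuous_snd.comp (hv j₀)))
    · have : {x : Fin n → XX col | (∀ h : (j : ℕ) < k, (x j).1 = (Sum.inl ⟨j, h⟩, (x j₀).1.2)) ∧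
          (¬ (j : ℕ) < k → x j = p₀)} = {x | x j = p₀} := by
        ext x; simp [hj]
      rw [this]
      exact isClosed_eq (continuous_apply j) continuous_const
  have hZcol : ∀ x ∈ Z, col (x j₀).1.2 = Sum.inl none := by
    intro x hx
    apply col_eq_none hk
    intro i
    have h1 := (hx ⟨i, by omega⟩).1 i.2
    have h2 := (x ⟨i, by omega⟩).2
    rw [h1] at h2
    exact h2
  have hZL : IsLindelof Z := hZ.isLindelof
  let U : {v : KK // col v = Sum.inl none} → Set (Fin n → XX col) := fun a =>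
    {x | x j₀ = ptS col ⟨0, hk⟩ a.1 a.2}
  obtain ⟨t, htc, htZ⟩ := hZL.elim_countable_subcover U
    (fun a => isOpen_eq_iso j₀ (ptS_iso _ _ _)) (by
      intro x hx
      refine mem_iUnion.2 ⟨⟨(x j₀).1.2, hZcol x hx⟩, ?_⟩
      apply Subtype.ext
      exact (hx j₀).1 hk)
  apply hunc
  have hsub : {v : KK | col v = Sum.inl none} ⊆ Subtype.val '' t := by
    intro v hv
    let x : Fin n → XX col := fun j => if h : (j : ℕ) < k then ptS col ⟨j, h⟩ v hv else p₀
    have hx0 : x j₀ = ptS col ⟨0, hk⟩ v hv := dif_pos (show (j₀ : ℕ) < k from hk)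
    have hxZ : x ∈ Z := by
      intro j
      constructor
      · intro h
        have : x j = ptS col ⟨j, h⟩ v hv := dif_pos h
        rw [this, hx0]
        rfl
      · intro h
        exact dif_neg h
    obtain ⟨a, hat, hxa⟩ := mem_iUnion₂.1 (htZ hxZ)
    refine ⟨a, hat, ?_⟩
    have h1 : ptS col ⟨0, hk⟩ v hv = ptS col ⟨0, hk⟩ a.1 a.2 := hx0.symm.trans hxa
    have h2 := congrArg (fun p : XX col => p.1.2) h1
    exact h2.symm
  exact (htc.image _).mono hsub

/-- A Baire category style separation lemma. -/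
theorem separation_aux {K : Type*} [TopologicalSpace K] [PolishSpace K] (E0 E1 : Set K)
    (N : K → Set K) (hN0 : ∀ w ∈ E0, N w ∈ 𝓝 w) (hN1 : ∀ w ∈ E1, N w ∈ 𝓝 w)
    (hsep : ∀ w ∈ E0, ∀ w' ∈ E1, ¬ (w' ∈ N w ∧ w ∈ N w')) :
    ∃ F : ℕ → Set K, (∀ n, IsClosed (F n)) ∧ (∀ n, ∀ w ∈ F n, w ∉ E1) ∧ E0 ⊆ ⋃ n, F n := by
  let := TopologicalSpace.upgradeIsCompletelyMetrizable K
  refine ⟨fun n => closure {w ∈ E0 | Metric.ball w (1 / ((n : ℝ) + 1)) ⊆ N w},
    fun n => isClosed_closure, ?_, ?_⟩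
  · intro n w' hw' hw'1
    obtain ⟨δ, hδ, hδN⟩ := Metric.mem_nhds_iff.1 (hN1 w' hw'1)
    have hpos : (0 : ℝ) < 1 / ((n : ℝ) + 1) := by positivity
    obtain ⟨w, ⟨hw0, hwN⟩, hd⟩ := Metric.mem_closure_iff.1 hw' (min δ (1 / ((n : ℝ) + 1)))
      (lt_min hδ hpos)
    apply hsep w hw0 w' hw'1
    constructor
    · exact hwN (Metric.mem_ball.2 (hd.trans_le (min_le_right _ _)))
    · apply hδN
      rw [Metric.mem_ball, dist_comm]
      exact hd.trans_le (min_le_left _ _)
  · intro w hw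
    obtain ⟨δ, hδ, hδN⟩ := Metric.mem_nhds_iff.1 (hN0 w hw)
    obtain ⟨n, hn⟩ := exists_nat_one_div_lt hδ
    exact mem_iUnion.2 ⟨n, subset_closure ⟨hw, (Metric.ball_subset_ball hn.le).trans hδN⟩⟩

/-- The points of `X` lying over a point whose colour is of the form `inr e'`. -/
def ptT (col : KK → Cl k m) (e : Fin m) (w : {w : KK // ∃ e' : Fin m, col w = Sum.inr e'}) :
    XX col :=
  ⟨(Sum.inr e, w.1), by obtain ⟨e', he'⟩ := w.2; rw [he']; trivial⟩

theorem ptT_iso_iff (e : Fin m) (w : {w : KK // ∃ e' : Fin m, col w = Sum.inr e'}) :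
    ptT col e w ∈ isoPts col ↔ col w.1 = Sum.inr e := by
  obtain ⟨w, e', he'⟩ := w
  show Isol (Sum.inr e) (col w) ↔ col w = Sum.inr e
  rw [he']
  constructor
  · intro h
    have h : e' = e := h
    rw [h]
  · intro h
    exact Sum.inr_injective h

theorem ptT_continuousAt (e : Fin m) (w : {w : KK // ∃ e' : Fin m, col w = Sum.inr e'})
    (hw : col w.1 ≠ Sum.inr e) : ContinuousAt (ptT col e) w := by
  have h1 : ptT col e w ∉ isoPts col := by rwa [ptT_iso_iff]
  rw [ContinuousAt, nhds_not_iso h1, tendsto_comap_iff]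
  have h2 : Continuous (fun w : {w : KK // ∃ e' : Fin m, col w = Sum.inr e'} =>
    ((Sum.inr e : Ix k m), (w : KK))) := continuous_const.prodMk continuous_subtype_val
  exact h2.continuousAt

theorem not_paracompact_pow (hcol : Generic col) {n : ℕ} (hm : 2 ≤ m) (hmn : m ≤ n) :
    ¬ ParacompactSpace (Fin n → XX col) := by
  classical
  intro hP
  have hm0 : 0 < m := by omega
  let e0 : Fin m := ⟨0, by omega⟩
  let e1 : Fin m := ⟨1, by omega⟩
  have he01 : e0 ≠ e1 := by
    intro h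
    have := congrArg Fin.val h
    simp [e0, e1] at this
  have hunc := uncountable_of_generic hcol (Sum.inr e0)
  have hne : ∃ w₀ : KK, col w₀ = Sum.inr e0 := by
    by_contra hcon
    push Not at hcon
    apply hunc
    have : {v : KK | col v = Sum.inr e0} = ∅ := by
      rw [eq_empty_iff_forall_notMem]
      exact fun v hv => hcon v hv
    rw [this]
    exact countable_empty
  obtain ⟨w₀, hw₀⟩ := hne
  let RT := {w : KK // ∃ e' : Fin m, col w = Sum.inr e'}
  let p₀ : XX col := ptT col e0 ⟨w₀, e0, hw₀⟩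
  let j₀ : Fin n := ⟨0, by omega⟩
  let Z : Set (Fin n → XX col) := {x | ∀ j : Fin n,
    (∀ h : (j : ℕ) < m, (x j).1 = (Sum.inr ⟨j, h⟩, (x j₀).1.2)) ∧ (¬ (j : ℕ) < m → x j = p₀)}
  have hv : ∀ j : Fin n, Continuous (fun x : Fin n → XX col => (x j).1) := fun j =>
    continuous_val.comp (continuous_apply j)
  have hZ : IsClosed Z := by
    have : Z = ⋂ j : Fin n, {x : Fin n → XX col |
      (∀ h : (j : ℕ) < m, (x j).1 = (Sum.inr ⟨j, h⟩, (x j₀).1.2)) ∧ (¬ (j : ℕ) < m → x j = p₀)} := by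
      ext x; simp [Z]
    rw [this]
    refine isClosed_iInter fun j => ?_
    by_cases hj : (j : ℕ) < m
    · have : {x : Fin n → XX col | (∀ h : (j : ℕ) < m, (x j).1 = (Sum.inr ⟨j, h⟩, (x j₀).1.2)) ∧
          (¬ (j : ℕ) < m → x j = p₀)} = {x | (x j).1 = (Sum.inr ⟨j, hj⟩, (x j₀).1.2)} := by
        ext x; simp [hj]
      rw [this]
      exact isClosed_eq (hv j) (continuous_const.prodMk (continuous_snd.comp (hv j₀)))
    · have : {x : Fin n → XX col | (∀ h : (j : ℕ) < m, (x j).1 = (Sum.inr ⟨j, h⟩, (x j₀).1.2)) ∧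
          (¬ (j : ℕ) < m → x j = p₀)} = {x | x j = p₀} := by
        ext x; simp [hj]
      rw [this]
      exact isClosed_eq (continuous_apply j) continuous_const
  -- every point of `Z` is isolated in `Z`
  have hZext : ∀ x ∈ Z, ∀ y ∈ Z, (x j₀).1.2 = (y j₀).1.2 → x = y := by
    intro x hx y hy hxy
    funext j
    by_cases hj : (j : ℕ) < m
    · apply Subtype.ext
      rw [(hx j).1 hj, (hy j).1 hj, hxy]
    · rw [(hx j).2 hj, (hy j).2 hj]
  have hZiso : ∀ x ∈ Z, ∃ V ∈ 𝓝 x, ∀ y ∈ V, y ∈ Z → y = x := by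
    intro x hx
    have h1 : ∃ e : Fin m, col (x j₀).1.2 = Sum.inr e := by
      have h2 := (x j₀).2
      rw [(hx j₀).1 hm0] at h2
      rcases hc : col (x j₀).1.2 with c | e
      · rw [hc] at h2
        exact h2.elim
      · exact ⟨e, rfl⟩
    obtain ⟨e, he⟩ := h1
    let j : Fin n := ⟨e, by omega⟩
    have hxj : x j ∈ isoPts col := by
      show Isol (x j).1.1 (col (x j).1.2)
      rw [(hx j).1 e.2]
      simp only
      rw [he]
      rfl
    refine ⟨{y | y j = x j}, (isOpen_eq_iso j hxj).mem_nhds rfl, ?_⟩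
    intro y hy hyZ
    apply hZext y hyZ x hx
    have h3 : y j = x j := hy
    have h4 := (hyZ j).1 e.2
    have h5 := (hx j).1 e.2
    rw [h3, h5] at h4
    exact (congrArg Prod.snd h4).symm
  have hclosed : ∀ S ⊆ Z, IsClosed S := by
    intro S hS
    rw [← isOpen_compl_iff, isOpen_iff_mem_nhds]
    intro x hx
    by_cases hxZ : x ∈ Z
    · obtain ⟨V, hV, hVZ⟩ := hZiso x hxZ
      filter_upwards [hV] with y hy hyS
      apply hx
      rw [← hVZ y hy (hS hyS)]
      exact hyS
    · filter_upwards [hZ.isOpen_compl.mem_nhds hxZ] with y hy hyS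
      exact hy (hS hyS)
  let H0 : Set (Fin n → XX col) := {x ∈ Z | col (x j₀).1.2 = Sum.inr e0}
  let H1 : Set (Fin n → XX col) := {x ∈ Z | col (x j₀).1.2 = Sum.inr e1}
  have hH0 : IsClosed H0 := hclosed _ (fun x hx => hx.1)
  have hH1 : IsClosed H1 := hclosed _ (fun x hx => hx.1)
  have hdis : Disjoint H0 H1 := by
    rw [Set.disjoint_left]
    rintro x ⟨-, h0⟩ ⟨-, h1⟩
    rw [h0] at h1
    exact he01 (Sum.inr_injective h1)
  have : NormalSpace (Fin n → XX col) := inferInstance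
  obtain ⟨U, V, hU, hV, hHU, hHV, hUV⟩ := normal_separation hH0 hH1 hdis
  -- the test points
  let pt : RT → RT → (Fin n → XX col) := fun w w' j =>
    if h : (j : ℕ) < m then
      (if (j : ℕ) = 1 then ptT col e1 w' else ptT col ⟨j, h⟩ w) else p₀
  have hptZ : ∀ w, pt w w ∈ Z ∧ (pt w w j₀).1.2 = w.1 := by
    intro w
    have h0 : pt w w j₀ = ptT col e0 w := by
      simp only [pt, j₀, hm0, dif_pos]
      rw [if_neg (by norm_num)]
    have h0' : (pt w w j₀).1.2 = w.1 := by rw [h0]; rfl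
    refine ⟨fun j => ⟨fun h => ?_, fun h => ?_⟩, h0'⟩
    · rw [h0']
      simp only [pt, h, dif_pos]
      split_ifs with h1
      · have : (⟨(j : ℕ), h⟩ : Fin m) = e1 := Fin.ext h1
        rw [this]
        rfl
      · rfl
    · simp only [pt, h, dif_neg, not_false_iff]
  have hcont0 : ∀ w : RT, col w.1 = Sum.inr e0 → ContinuousAt (fun w' => pt w w') w := by
    intro w hw
    rw [continuousAt_pi]
    intro j
    by_cases h : (j : ℕ) < m
    · by_cases h1 : (j : ℕ) = 1
      · have h3 : (fun y => pt w y j) = fun y => ptT col e1 y := by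
          funext y
          simp only [pt, dif_pos h, if_pos h1]
        rw [h3]
        apply ptT_continuousAt
        rw [hw]
        intro h2
        exact he01 (Sum.inr_injective h2)
      · simp only [pt, h, h1, dif_pos, if_neg, not_false_iff]
        exact continuousAt_const
    · simp only [pt, h, dif_neg, not_false_iff]
      exact continuousAt_const
  have hcont1 : ∀ w : RT, col w.1 = Sum.inr e1 → ContinuousAt (fun w' => pt w' w) w := by
    intro w hw
    rw [continuousAt_pi]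
    intro j
    by_cases h : (j : ℕ) < m
    · by_cases h1 : (j : ℕ) = 1
      · have h3 : (fun y => pt y w j) = fun _ => ptT col e1 w := by
          funext y
          simp only [pt, dif_pos h, if_pos h1]
        rw [h3]
        exact continuousAt_const
      · simp only [pt, h, h1, dif_pos, if_neg, not_false_iff]
        apply ptT_continuousAt
        rw [hw]
        intro h2
        have h3 := Sum.inr_injective h2
        apply h1
        have h4 := congrArg Fin.val h3
        exact h4.symm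
    · simp only [pt, h, dif_neg, not_false_iff]
      exact continuousAt_const
  -- neighbourhoods
  have hN0 : ∀ w : KK, ∀ hw : col w = Sum.inr e0, ∃ N ∈ 𝓝 w, ∀ w' : RT, w'.1 ∈ N →
      pt ⟨w, e0, hw⟩ w' ∈ U := by
    intro w hw
    have h1 : (fun w' : RT => pt ⟨w, e0, hw⟩ w') ⁻¹' U ∈ 𝓝 (⟨w, e0, hw⟩ : RT) := by
      apply hcont0 ⟨w, e0, hw⟩ hw
      apply hU.mem_nhds
      apply hHU
      exact ⟨(hptZ _).1, by rw [(hptZ _).2]; exact hw⟩
    rw [mem_nhds_subtype] at h1
    obtain ⟨N, hN, hNs⟩ := h1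
    exact ⟨N, hN, fun w' hw' => hNs hw'⟩
  have hN1 : ∀ w : KK, ∀ hw : col w = Sum.inr e1, ∃ N ∈ 𝓝 w, ∀ w' : RT, w'.1 ∈ N →
      pt w' ⟨w, e1, hw⟩ ∈ V := by
    intro w hw
    have h1 : (fun w' : RT => pt w' ⟨w, e1, hw⟩) ⁻¹' V ∈ 𝓝 (⟨w, e1, hw⟩ : RT) := by
      apply hcont1 ⟨w, e1, hw⟩ hw
      apply hV.mem_nhds
      apply hHV
      exact ⟨(hptZ _).1, by rw [(hptZ _).2]; exact hw⟩
    rw [mem_nhds_subtype] at h1
    obtain ⟨N, hN, hNs⟩ := h1
    exact ⟨N, hN, fun w' hw' => hNs hw'⟩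
  choose N0 hN0n hN0 using hN0
  choose N1 hN1n hN1 using hN1
  let N : KK → Set KK := fun w => if h : col w = Sum.inr e0 then N0 w h else
    (if h : col w = Sum.inr e1 then N1 w h else univ)
  have hne10 : ∀ w : KK, col w = Sum.inr e1 → ¬ col w = Sum.inr e0 := by
    intro w h1 h0
    rw [h0] at h1
    exact he01 (Sum.inr_injective h1)
  have hNe0 : ∀ w (h : col w = Sum.inr e0), N w = N0 w h := fun w h => dif_pos h
  have hNe1 : ∀ w (h : col w = Sum.inr e1), N w = N1 w h := fun w h => by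
    simp only [N]
    rw [dif_neg (hne10 w h), dif_pos h]
  obtain ⟨F, hFc, hF1, hF0⟩ := separation_aux {w | col w = Sum.inr e0} {w | col w = Sum.inr e1} N
    (fun w hw => by rw [hNe0 w hw]; exact hN0n w hw)
    (fun w hw => by rw [hNe1 w hw]; exact hN1n w hw)
    (fun w hw w' hw' h => by
      rw [hNe0 w hw, hNe1 w' hw'] at h
      have h1 := hN0 w hw ⟨w', e1, hw'⟩ h.1
      have h2 := hN1 w' hw' ⟨w, e0, hw⟩ h.2
      exact Set.disjoint_left.1 hUV h1 h2)
  apply hunc
  refine Set.Countable.mono hF0 (countable_iUnion fun n => ?_)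
  exact countable_of_generic hcol (Sum.inr e1) (hFc n) (fun v hv => hF1 n v hv)

end Pool.Agent.H.MP_60be70_gt
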