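import Mathlib

open Set Filter Metric Function Topology
open scoped ENNReal

namespace Pool.Agent.H.MP_60be70_gt

/-- A set of `n`-tuples is small if it is covered by countably many hyperplanes `x j = c`. -/
def Small {K : Type*} {n : ℕ} (F : Set (Fin n → K)) : Prop :=
  ∃ Q : Set K, Q.Countable ∧ ∀ x ∈ F, ∃ j, x j ∈ Q

theorem Small.mono {K : Type*} {n : ℕ} {F G : Set (Fin n → K)} (h : Small G) (hFG : F ⊆ G) :
    Small F := by
  obtain ⟨Q, hQ, h⟩ := h
  exact ⟨Q, hQ, fun x hx => h x (hFG hx)⟩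

theorem Small.iUnion {K : Type*} {n : ℕ} {ι : Type*} [Countable ι] {F : ι → Set (Fin n → K)}
    (h : ∀ i, Small (F i)) : Small (⋃ i, F i) := by
  choose Q hQ h using h
  refine ⟨⋃ i, Q i, countable_iUnion hQ, fun x hx => ?_⟩
  obtain ⟨i, hi⟩ := mem_iUnion.1 hx
  obtain ⟨j, hj⟩ := h i x hi
  exact ⟨j, mem_iUnion.2 ⟨i, hj⟩⟩

theorem Small.union {K : Type*} {n : ℕ} {F G : Set (Fin n → K)} (hF : Small F) (hG : Small G) :
    Small (F ∪ G) := by
  rw [union_eq_iUnion]
  exact Small.iUnion (fun b => by cases b <;> assumption)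

theorem small_sUnion {K : Type*} {n : ℕ} {S : Set (Set (Fin n → K))} (hS : S.Countable)
    (h : ∀ F ∈ S, Small F) : Small (⋃₀ S) := by
  have := hS.to_subtype
  rw [sUnion_eq_iUnion]
  exact Small.iUnion (fun i => h i i.2)

section Kernel

variable {K : Type*} [TopologicalSpace K] {n : ℕ}

/-- A nonempty closed set all of whose nonempty relatively open pieces are not small. -/
def BP (F : Set (Fin n → K)) : Prop :=
  IsClosed F ∧ F.Nonempty ∧ ∀ U : Set (Fin n → K), IsOpen U → (F ∩ U).Nonempty → ¬ Small (F ∩ U)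

theorem exists_BP [SecondCountableTopology K] {F : Set (Fin n → K)} (hF : IsClosed F)
    (hs : ¬ Small F) : ∃ F' ⊆ F, BP F' := by
  classical
  let b := TopologicalSpace.countableBasis (Fin n → K)
  let S : Set (Set (Fin n → K)) := {U | U ∈ b ∧ Small (F ∩ U)}
  have hSb : S ⊆ b := fun U hU => hU.1
  have hScount : S.Countable := (TopologicalSpace.countable_countableBasis _).mono hSb
  have hopen : IsOpen (⋃₀ S) :=
    isOpen_sUnion fun U hU => TopologicalSpace.isOpen_of_mem_countableBasis (hSb hU)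
  have hsm : Small (F ∩ ⋃₀ S) := by
    have : F ∩ ⋃₀ S = ⋃₀ ((fun U => F ∩ U) '' S) := by
      rw [sUnion_image, sUnion_eq_biUnion, inter_iUnion₂]
    rw [this]
    refine small_sUnion (hScount.image _) ?_
    rintro _ ⟨U, hU, rfl⟩
    exact hU.2
  refine ⟨F \ ⋃₀ S, sdiff_subset, hF.sdiff hopen, ?_, ?_⟩
  · by_contra hne
    rw [not_nonempty_iff_eq_empty, sdiff_eq_empty] at hne
    exact hs (hsm.mono fun x hx => ⟨hx, hne hx⟩)
  · rintro U hU ⟨x, ⟨hxF, hxS⟩, hxU⟩ hsmall
    obtain ⟨V, hVb, hxV, hVU⟩ :=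
      (TopologicalSpace.isBasis_countableBasis (Fin n → K)).exists_subset_of_mem_open hxU hU
    apply hxS
    refine ⟨V, ⟨hVb, ?_⟩, hxV⟩
    refine (hsmall.union hsm).mono ?_
    intro y hy
    by_cases hyS : y ∈ ⋃₀ S
    · exact Or.inr ⟨hy.1, hyS⟩
    · exact Or.inl ⟨⟨hy.1, hyS⟩, hVU hy.2⟩

end Kernel

section Split

variable {K : Type*} [MetricSpace K] {n : ℕ}

theorem BP.closure_ball {F : Set (Fin n → K)} (hF : BP F) {x : Fin n → K} (hx : x ∈ F)
    {δ : ℝ} (hδ : 0 < δ) : BP (closure (F ∩ ball x δ)) := by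
  refine ⟨isClosed_closure, ⟨x, subset_closure ⟨hx, mem_ball_self hδ⟩⟩, ?_⟩
  intro U hU hne hsm
  obtain ⟨y, hy, hyU⟩ := hne
  obtain ⟨z, hzU, hz⟩ := mem_closure_iff.1 hy U hU hyU
  have : ¬ Small (F ∩ (ball x δ ∩ U)) :=
    hF.2.2 _ (isOpen_ball.inter hU) ⟨z, hz.1, hz.2, hzU⟩
  apply this
  refine hsm.mono ?_
  intro w hw
  exact ⟨subset_closure ⟨hw.1, hw.2.1⟩, hw.2.2⟩

theorem BP.split {F : Set (Fin n → K)} (hF : BP F) {ε : ℝ≥0∞} (hε : 0 < ε) :
    ∃ F₀ F₁ : Set (Fin n → K), (BP F₀ ∧ F₀ ⊆ F ∧ Metric.ediam F₀ ≤ ε) ∧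
      (BP F₁ ∧ F₁ ⊆ F ∧ Metric.ediam F₁ ≤ ε) ∧ ∀ x ∈ F₀, ∀ y ∈ F₁, ∀ i j, x i ≠ y j := by
  obtain ⟨x, hx⟩ := hF.2.1
  have h1 : ∃ y ∈ F, ∀ i j, x i ≠ y j := by
    by_contra hcon
    push Not at hcon
    apply hF.2.2 univ isOpen_univ ⟨x, hx, mem_univ _⟩
    refine ⟨range x, (finite_range x).countable, ?_⟩
    rintro y ⟨hy, -⟩
    obtain ⟨i, j, h⟩ := hcon y hy
    exact ⟨j, i, h⟩
  obtain ⟨y, hy, hxy⟩ := h1
  -- choose δ
  have h2 : ∃ δ : ℝ, 0 < δ ∧ (∀ i j, 2 * δ < dist (x i) (y j)) ∧ ENNReal.ofReal (2 * δ) ≤ ε := by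
    have hev : ∀ᶠ δ in 𝓝[>] (0 : ℝ), (∀ i j, 2 * δ < dist (x i) (y j)) := by
      rw [eventually_all]
      intro i
      rw [eventually_all]
      intro j
      have hpos : 0 < dist (x i) (y j) := dist_pos.2 (hxy i j)
      have : Tendsto (fun δ : ℝ => 2 * δ) (𝓝[>] (0 : ℝ)) (𝓝 0) := by
        have h := (continuous_const_mul (2 : ℝ)).tendsto 0
        simp only [mul_zero] at h
        exact h.mono_left nhdsWithin_le_nhds
      exact this.eventually_lt_const hpos
    have hev2 : ∀ᶠ δ in 𝓝[>] (0 : ℝ), ENNReal.ofReal (2 * δ) ≤ ε := by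
      have : Tendsto (fun δ : ℝ => ENNReal.ofReal (2 * δ)) (𝓝[>] (0 : ℝ)) (𝓝 0) := by
        have h := (ENNReal.continuous_ofReal.comp (continuous_const_mul (2 : ℝ))).tendsto 0
        simp only [comp_apply, mul_zero, ENNReal.ofReal_zero] at h
        exact h.mono_left nhdsWithin_le_nhds
      exact this.eventually_le_const hε
    have hev3 : ∀ᶠ δ in 𝓝[>] (0 : ℝ), 0 < δ := self_mem_nhdsWithin
    obtain ⟨δ, h, h', h''⟩ := (hev.and (hev2.and hev3)).exists
    exact ⟨δ, h'', h, h'⟩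
  obtain ⟨δ, hδ, hd, hde⟩ := h2
  have hsub : ∀ z ∈ F, closure (F ∩ ball z δ) ⊆ F ∩ closedBall z δ := by
    intro z _
    refine (closure_mono (inter_subset_inter_right _ ball_subset_closedBall)).trans ?_
    exact (hF.1.inter isClosed_closedBall).closure_subset
  have hdiam : ∀ z ∈ F, Metric.ediam (closure (F ∩ ball z δ)) ≤ ε := by
    intro z hz
    refine le_trans (Metric.ediam_mono ((hsub z hz).trans inter_subset_right)) ?_
    refine le_trans ?_ hde
    refine Metric.ediam_le fun a ha b hb => ?_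
    rw [edist_dist]
    apply ENNReal.ofReal_le_ofReal
    have h1 := mem_closedBall.1 ha
    have h2 := mem_closedBall.1 hb
    calc dist a b ≤ dist a z + dist b z := dist_triangle_right _ _ _
      _ ≤ 2 * δ := by linarith
  refine ⟨closure (F ∩ ball x δ), closure (F ∩ ball y δ),
    ⟨hF.closure_ball hx hδ, (hsub x hx).trans inter_subset_left, hdiam x hx⟩,
    ⟨hF.closure_ball hy hδ, (hsub y hy).trans inter_subset_left, hdiam y hy⟩, ?_⟩
  intro a ha b hb i j hab
  have h1 := mem_closedBall.1 (hsub x hx ha).2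
  have h2 := mem_closedBall.1 (hsub y hy hb).2
  have h3 : dist (a i) (x i) ≤ δ := (dist_le_pi_dist a x i).trans h1
  have h4 : dist (b j) (y j) ≤ δ := (dist_le_pi_dist b y j).trans h2
  have h5 := hd i j
  have h6 : dist (x i) (y j) ≤ dist (a i) (x i) + dist (b j) (y j) := by
    calc dist (x i) (y j) ≤ dist (x i) (a i) + dist (a i) (y j) := dist_triangle _ _ _
      _ = dist (a i) (x i) + dist (b j) (y j) := by rw [dist_comm (x i), hab]
  linarith

end Split

open CantorScheme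

/-- The Cantor scheme lemma: a closed set of `n`-tuples which is not covered by countably many
hyperplanes contains continuum many points with pairwise disjoint ranges. -/
theorem exists_disjoint_family {K : Type*} [MetricSpace K] [CompleteSpace K]
    [SecondCountableTopology K] {n : ℕ} {F : Set (Fin n → K)} (hF : IsClosed F)
    (hs : ¬ Small F) : ∃ f : (ℕ → Bool) → (Fin n → K), (∀ a, f a ∈ F) ∧
      ∀ a b, a ≠ b → ∀ i j, f a i ≠ f b j := by
  obtain ⟨C, hCF, hC⟩ := exists_BP hF hs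
  obtain ⟨u, -, upos', hu⟩ := exists_seq_strictAnti_tendsto' (zero_lt_one' ℝ≥0∞)
  have upos := fun n => (upos' n).1
  let P := Subtype fun E : Set (Fin n → K) => BP E
  choose C0 C1 h0 h1 hdisj using
    fun {C : Set (Fin n → K)} (hC : BP C) {ε : ℝ≥0∞} (hε : 0 < ε) => hC.split hε
  let DP : List Bool → P := fun l => by
    induction l with
    | nil => exact ⟨C, hC⟩
    | cons a l ih =>
      cases a
      · use C0 ih.property (upos (l.length + 1))
        exact (h0 _ _).1
      use C1 ih.property (upos (l.length + 1))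
      exact (h1 _ _).1
  let D : List Bool → Set (Fin n → K) := fun l => (DP l).val
  have hanti : ClosureAntitone D := by
    refine Antitone.closureAntitone ?_ fun l => (DP l).property.1
    intro l a
    cases a
    · exact (h0 _ _).2.1
    exact (h1 _ _).2.1
  have hdiam : VanishingDiam D := by
    intro x
    apply tendsto_of_tendsto_of_tendsto_of_le_of_le' tendsto_const_nhds hu
    · simp
    rw [eventually_atTop]
    refine ⟨1, fun m (hm : 1 ≤ m) => ?_⟩
    rw [Nat.one_le_iff_ne_zero] at hm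
    rcases Nat.exists_eq_succ_of_ne_zero hm with ⟨n, rfl⟩
    dsimp
    cases x n
    · convert! (h0 _ _).2.2
      rw [PiNat.res_length]
    convert! (h1 _ _).2.2
    rw [PiNat.res_length]
  have hsep : ∀ l : List Bool, ∀ x ∈ D (false :: l), ∀ y ∈ D (true :: l), ∀ i j, x i ≠ y j := by
    intro l x hx y hy
    exact hdisj _ _ x hx y hy
  have hdom : ∀ {x : ℕ → Bool}, x ∈ (inducedMap D).1 := fun {x} => by
    rw [hanti.map_of_vanishingDiam hdiam fun l => (DP l).property.2.1]
    apply mem_univ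
  refine ⟨fun x => (inducedMap D).2 ⟨x, hdom⟩, ?_, ?_⟩
  · intro x
    exact hCF (map_mem ⟨_, hdom⟩ 0)
  · intro a b hab
    obtain ⟨m, hm⟩ := Function.ne_iff.1 hab
    -- least difference
    have hex : ∃ m, a m ≠ b m := ⟨m, hm⟩
    classical
    let m₀ := Nat.find hex
    have hm₀ : a m₀ ≠ b m₀ := Nat.find_spec hex
    have hlt : ∀ m < m₀, a m = b m := fun m hm => by
      have := Nat.find_min hex hm
      simpa using this
    have hres : PiNat.res a m₀ = PiNat.res b m₀ := by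
      rw [PiNat.res_eq_res]
      exact fun i hi => hlt i hi
    have ha := map_mem (A := D) ⟨a, hdom⟩ (m₀ + 1)
    have hb := map_mem (A := D) ⟨b, hdom⟩ (m₀ + 1)
    rw [PiNat.res_succ] at ha hb
    simp only at ha hb
    rw [← hres] at hb
    intro i j
    cases hA : a m₀ <;> cases hB : b m₀
    · exact absurd (hA.trans hB.symm) hm₀
    · rw [hA] at ha; rw [hB] at hb
      exact hsep _ _ ha _ hb i j
    · rw [hA] at ha; rw [hB] at hb
      exact (hsep _ _ hb _ ha j i).symm
    · exact absurd (hA.trans hB.symm) hm₀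

end Pool.Agent.H.MP_60be70_gt
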