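import Pool.Agent.H.MP_60be70_gt.General

open Set Filter Function Topology

namespace Pool.Agent.H.MP_60be70_gt

/-- The topology obtained from `τ` by isolating the points of `L`. -/
@[reducible] def isolTop {Y : Type*} (τ : TopologicalSpace Y) (L : Set Y) : TopologicalSpace Y where
  IsOpen U := ∀ x ∈ U, x ∉ L → U ∈ @nhds Y τ x
  isOpen_univ := fun _ _ _ => Filter.univ_mem
  isOpen_inter := fun _ _ hU hV x hx hL => Filter.inter_mem (hU x hx.1 hL) (hV x hx.2 hL)
  isOpen_sUnion := fun _ hS x ⟨U, hU, hx⟩ hL =>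
    Filter.mem_of_superset (hS U hU x hx hL) (subset_sUnion_of_mem hU)

theorem isolTop_le {Y : Type*} (τ : TopologicalSpace Y) (L : Set Y) : isolTop τ L ≤ τ :=
  fun _ hU _ hx _ => @IsOpen.mem_nhds Y τ _ _ hU hx

theorem nhds_isolTop_of_mem {Y : Type*} (τ : TopologicalSpace Y) {L : Set Y} {x : Y}
    (hx : x ∈ L) : @nhds Y (isolTop τ L) x = pure x := by
  apply le_antisymm
  · intro U hU
    have hxU : x ∈ U := hU
    have : IsOpen[isolTop τ L] {x} := by
      intro y hy hyL
      rw [mem_singleton_iff] at hy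
      exact absurd (hy ▸ hx) hyL
    refine Filter.mem_of_superset (@IsOpen.mem_nhds Y (isolTop τ L) x {x} this rfl) ?_
    rintro y rfl
    exact hxU
  · exact @pure_le_nhds Y (isolTop τ L) x

theorem nhds_isolTop_of_notMem {Y : Type*} (τ : TopologicalSpace Y) {L : Set Y} {x : Y}
    (hx : x ∉ L) : @nhds Y (isolTop τ L) x = @nhds Y τ x := by
  apply le_antisymm
  · exact nhds_mono (isolTop_le τ L)
  · intro U hU
    rw [@mem_nhds_iff Y (isolTop τ L) x U] at hU
    obtain ⟨V, hVU, hV, hxV⟩ := hU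
    exact Filter.mem_of_superset (hV x hxV hx) hVU

abbrev Ix (k m : ℕ) : Type := Fin k ⊕ Fin m

abbrev Cl (k m : ℕ) : Type := Option (Fin k) ⊕ Fin m

variable {k m : ℕ}

/-- Which colours occur in the summand with index `i`. -/
def Mem : Ix k m → Cl k m → Prop
  | .inl _, .inl none => True
  | .inl i, .inl (some i') => i' ≠ i
  | .inl _, .inr _ => False
  | .inr _, .inl _ => False
  | .inr _, .inr _ => True

/-- Which colours are isolated in the summand with index `i`. -/
def Isol : Ix k m → Cl k m → Prop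
  | .inl _, .inl none => True
  | .inl _, .inl (some _) => False
  | .inl _, .inr _ => False
  | .inr _, .inl _ => False
  | .inr j, .inr j' => j' = j

/-- The underlying set of our example. -/
def XX (col : KK → Cl k m) : Type := {p : Ix k m × KK // Mem p.1 (col p.2)}

variable {col : KK → Cl k m}

/-- The isolated points. -/
def isoPts (col : KK → Cl k m) : Set (XX col) := {p | Isol p.1.1 (col p.1.2)}

instance : TopologicalSpace (XX col) :=
  isolTop (instTopologicalSpaceSubtype : TopologicalSpace {p : Ix k m × KK // Mem p.1 (col p.2)})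
    (isoPts col)

theorem continuous_val : Continuous (fun x : XX col => (x.1 : Ix k m × KK)) :=
  continuous_le_dom (isolTop_le _ _) continuous_subtype_val

theorem nhds_iso {x : XX col} (hx : x ∈ isoPts col) : 𝓝 x = pure x := nhds_isolTop_of_mem _ hx

theorem nhds_not_iso {x : XX col} (hx : x ∉ isoPts col) :
    𝓝 x = comap (fun x : XX col => (x.1 : Ix k m × KK)) (𝓝 x.1) := by
  have h1 : 𝓝 x = @nhds {p : Ix k m × KK // Mem p.1 (col p.2)} instTopologicalSpaceSubtype x :=
    nhds_isolTop_of_notMem _ hx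
  rw [h1]
  exact nhds_subtype_eq_comap

theorem isOpen_singleton_iso {x : XX col} (hx : x ∈ isoPts col) : IsOpen ({x} : Set (XX col)) := by
  rw [isOpen_singleton_iff_nhds_eq_pure]
  exact nhds_iso hx

instance : T2Space (XX col) :=
  T2Space.of_injective_continuous (f := fun x : XX col => (x.1 : Ix k m × KK))
    (fun _ _ h => Subtype.ext h) continuous_val

theorem XX_zd : ZD (XX col) := by
  intro x U hU
  by_cases hx : x ∈ isoPts col
  · refine ⟨{x}, ?_, ⟨isClosed_singleton, isOpen_singleton_iso hx⟩, rfl⟩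
    rw [singleton_subset_iff]
    exact mem_of_mem_nhds hU
  · rw [nhds_not_iso hx, mem_comap] at hU
    obtain ⟨O, hO, hOU⟩ := hU
    obtain ⟨V, ⟨hV, hxV⟩, hVO⟩ := (isTopologicalBasis_isClopen (X := Ix k m × KK)).mem_nhds_iff.1 hO |>.imp
      fun V h => (⟨⟨h.1, h.2.1⟩, h.2.2⟩ : (IsClopen V ∧ x.1 ∈ V) ∧ V ⊆ O)
    exact ⟨(fun x : XX col => (x.1 : Ix k m × KK)) ⁻¹' V, (preimage_mono hVO).trans hOU,
      hV.preimage continuous_val, hxV⟩

instance : T3Space (XX col) := by
  have : RegularSpace (XX col) := XX_zd.regularSpace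
  infer_instance

theorem nhds_tuple {n : ℕ} {x : Fin n → XX col} (hx : ∀ j, x j ∉ isoPts col)
    {U : Set (Fin n → XX col)} (hU : U ∈ 𝓝 x) :
    ∃ O : Set (Fin n → Ix k m × KK), IsOpen O ∧ (fun j => (x j).1) ∈ O ∧
      ∀ y : Fin n → XX col, (fun j => (y j).1) ∈ O → y ∈ U := by
  rw [nhds_pi, Filter.mem_pi] at hU
  obtain ⟨I, hI, t, ht, htU⟩ := hU
  have h1 : ∀ j, ∃ O : Set (Ix k m × KK), IsOpen O ∧ (x j).1 ∈ O ∧ ∀ y : XX col, y.1 ∈ O → y ∈ t j := by
    intro j
    have := ht j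
    rw [nhds_not_iso (hx j), mem_comap] at this
    obtain ⟨O, hO, hOt⟩ := this
    obtain ⟨V, hVO, hV, hxV⟩ := mem_nhds_iff.1 hO
    exact ⟨V, hV, hxV, fun y hy => hOt (hVO hy)⟩
  choose O hO hxO hOt using h1
  refine ⟨⋂ j, (fun y : Fin n → Ix k m × KK => y j) ⁻¹' O j, ?_, ?_, ?_⟩
  · exact isOpen_iInter_of_finite fun j => (hO j).preimage (continuous_apply j)
  · exact mem_iInter.2 fun j => hxO j
  · intro y hy
    apply htU
    intro j _
    exact hOt j (y j) (mem_iInter.1 hy j)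

theorem col_eq_none {w : KK} (hk : 0 < k) (h : ∀ i : Fin k, Mem (m := m) (Sum.inl i) (col w)) :
    col w = Sum.inl none := by
  rcases hc : col w with (_ | i) | e
  · rfl
  · have := h i
    rw [hc] at this
    exact absurd rfl this
  · have := h ⟨0, hk⟩
    rw [hc] at this
    exact this.elim

/-- The `j`-th piece of the diagonal part of `X^n`. -/
def QQ (col : KK → Cl k m) (hk : 0 < k) {n : ℕ} (j : Fin n) : Set (Fin n → XX col) :=
  {x | (x j).1.1 = Sum.inl ⟨0, hk⟩ ∧ ∀ i : Fin k, ∃ j', (x j').1 = (Sum.inl i, (x j).1.2)}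

/-- The diagonal part of `X^n`. -/
def DD (col : KK → Cl k m) (n : ℕ) : Set (Fin n → XX col) :=
  {x | ∃ w : KK, ∀ i : Fin k, ∃ j, (x j).1 = (Sum.inl i, w)}

theorem DD_eq (hk : 0 < k) (n : ℕ) : DD col n = ⋃ j, QQ col hk j := by
  ext x
  simp only [mem_iUnion]
  constructor
  · rintro ⟨w, h⟩
    obtain ⟨j, hj⟩ := h ⟨0, hk⟩
    refine ⟨j, by rw [hj], fun i => ?_⟩
    rw [hj]
    exact h i
  · rintro ⟨j, -, h⟩
    exact ⟨_, h⟩

theorem iso_of_QQ {hk : 0 < k} {n : ℕ} {j : Fin n} {x : Fin n → XX col} (hx : x ∈ QQ col hk j)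
    {j' : Fin n} {i : Fin k} (h : (x j').1 = (Sum.inl i, (x j).1.2)) : x j' ∈ isoPts col := by
  have hcol : col (x j).1.2 = Sum.inl none := by
    apply col_eq_none hk
    intro i
    obtain ⟨j', hj'⟩ := hx.2 i
    have := (x j').2
    rw [hj'] at this
    exact this
  show Isol (x j').1.1 (col (x j').1.2)
  rw [h]
  simp only [hcol]
  trivial

theorem QQ_iso {hk : 0 < k} {n : ℕ} {j : Fin n} {x : Fin n → XX col} (hx : x ∈ QQ col hk j) :
    x j ∈ isoPts col := by
  apply iso_of_QQ hx (i := ⟨0, hk⟩)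
  ext1
  · exact hx.1
  · rfl

theorem isOpen_eq_iso {n : ℕ} (j : Fin n) {a : XX col} (ha : a ∈ isoPts col) :
    IsOpen {x : Fin n → XX col | x j = a} := by
  have h : Continuous (fun x : Fin n → XX col => x j) := continuous_apply j
  exact (isOpen_singleton_iso ha).preimage h

theorem QQ_open {hk : 0 < k} {n : ℕ} (j : Fin n) : IsOpen (QQ col hk j) := by
  rw [isOpen_iff_mem_nhds]
  intro x hx
  choose φ hφ using hx.2
  have h1 : ∀ i : Fin k, {y : Fin n → XX col | y (φ i) = x (φ i)} ∈ 𝓝 x := fun i =>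
    (isOpen_eq_iso (φ i) (iso_of_QQ hx (hφ i))).mem_nhds rfl
  have h2 : {y : Fin n → XX col | y j = x j} ∈ 𝓝 x := (isOpen_eq_iso j (QQ_iso hx)).mem_nhds rfl
  have h3 : ⋂ i, {y : Fin n → XX col | y (φ i) = x (φ i)} ∈ 𝓝 x := Filter.iInter_mem.2 h1
  filter_upwards [h2, h3] with y hy hy'
  have hy : y j = x j := hy
  refine ⟨by rw [hy]; exact hx.1, fun i => ⟨φ i, ?_⟩⟩
  have : y (φ i) = x (φ i) := mem_iInter.1 hy' i
  rw [this, hy, hφ i]

theorem QQ_closed {hk : 0 < k} {n : ℕ} (j : Fin n) : IsClosed (QQ col hk j) := by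
  have hv : ∀ j : Fin n, Continuous (fun x : Fin n → XX col => (x j).1) := fun j =>
    continuous_val.comp (continuous_apply j)
  have : QQ col hk j = {x : Fin n → XX col | (x j).1.1 = Sum.inl ⟨0, hk⟩} ∩
      ⋂ i : Fin k, ⋃ j' : Fin n, {x : Fin n → XX col | (x j').1 = (Sum.inl i, (x j).1.2)} := by
    ext x
    simp only [mem_inter_iff, mem_iInter, mem_iUnion]
    rfl
  rw [this]
  refine IsClosed.inter ?_ (isClosed_iInter fun i => isClosed_iUnion_of_finite fun j' => ?_)
  · exact isClosed_eq (continuous_fst.comp (hv j)) continuous_const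
  · exact isClosed_eq (hv j') (continuous_const.prodMk (continuous_snd.comp (hv j)))

theorem DD_open (hk : 0 < k) (n : ℕ) : IsOpen (DD col n) := by
  rw [DD_eq hk]
  exact isOpen_iUnion fun j => QQ_open j

theorem DD_closed (hk : 0 < k) (n : ℕ) : IsClosed (DD col n) := by
  rw [DD_eq hk]
  exact isClosed_iUnion_of_finite fun j => QQ_closed j

end Pool.Agent.H.MP_60be70_gt
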